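import Mathlib

/-!
# Isolation numbers of graphs
-/

namespace Pool.Agent.Lib.MP_aa4a89_co

/-- The closed neighbourhood `N[D]` of a set `D` of vertices of `G`. -/
def closedNbhd {V : Type*} (G : SimpleGraph V) (D : Set V) : Set V :=
  {v | v ∈ D ∨ ∃ u ∈ D, G.Adj u v}

/-- `D` is `{F}`-isolating in `G`: the graph `G - N[D]` has no subgraph (not necessarily induced)
isomorphic to `F`. -/
def IsIsolating {V W : Type*} (G : SimpleGraph V) (F : SimpleGraph W) (D : Finset V) : Prop :=
  F.Free (G.induce (closedNbhd G D)ᶜ)

/-- The isolation number: the minimum size of an `{F}`-isolating set of `G`. -/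
noncomputable def isolationNumber {V W : Type*} (G : SimpleGraph V) (F : SimpleGraph W) : ℕ :=
  sInf {m | ∃ D : Finset V, D.card = m ∧ IsIsolating G F D}

/-- `c F n` is `1 / n` times the maximum of the isolation number over all connected graphs with
`n` vertices. -/
noncomputable def c {W : Type*} (F : SimpleGraph W) (n : ℕ) : ℝ :=
  sSup {x : ℝ | ∃ G : SimpleGraph (Fin n), G.Connected ∧ x = (isolationNumber G F : ℝ) / n}

end Pool.Agent.Lib.MP_aa4a89_co
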