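import Mathlib

/-!
# Cubic graphs in which long non-backtracking walks are injective
-/

namespace Pool.Agent.Lib.MP_aa4a89_co

/-- Toggle the letter `i` at the front of a word, truncated at length `r`. -/
def tog (r : ℕ) (i : Fin 3) : List (Fin 3) → List (Fin 3)
  | [] => if 0 < r then [i] else []
  | a :: t => if a = i then t else if t.length + 1 < r then i :: a :: t else a :: t

/-- Words in three letters with no two consecutive equal letters and length at most `r`. -/
def Red (r : ℕ) : Type := {l : List (Fin 3) // l.length ≤ r ∧ l.IsChain (· ≠ ·)}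

lemma tog_good (r : ℕ) (i : Fin 3) (l : List (Fin 3)) (h1 : l.length ≤ r)
    (h2 : l.IsChain (· ≠ ·)) : (tog r i l).length ≤ r ∧ (tog r i l).IsChain (· ≠ ·) := by
  cases l with
  | nil =>
    unfold tog
    split_ifs with h
    · exact ⟨by simp only [List.length_cons, List.length_nil]; omega, by simp⟩
    · exact ⟨by simp, by simp⟩
  | cons a t =>
    simp only [tog]
    split_ifs with h h'
    · simp only [List.length_cons] at h1
      exact ⟨by omega, h2.tail⟩
    · refine ⟨by simp only [List.length_cons]; omega, ?_⟩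
      rw [List.isChain_cons_cons]
      exact ⟨fun e => h e.symm, h2⟩
    · exact ⟨h1, h2⟩

lemma tog_tog (r : ℕ) (i : Fin 3) (l : List (Fin 3)) (h1 : l.length ≤ r)
    (h2 : l.IsChain (· ≠ ·)) : tog r i (tog r i l) = l := by
  cases l with
  | nil =>
    by_cases h : 0 < r
    · simp [tog, h]
    · simp [tog, h]
  | cons a t =>
    by_cases h : a = i
    · subst h
      cases t with
      | nil =>
        have : 0 < r := by simp only [List.length_cons, List.length_nil] at h1; omega
        simp [tog, this]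
      | cons b s =>
        rw [List.isChain_cons_cons] at h2
        have hb : b ≠ a := fun e => h2.1 e.symm
        have : s.length + 1 < r := by simp only [List.length_cons] at h1; omega
        simp [tog, hb, this]
    · by_cases h' : t.length + 1 < r
      · simp [tog, h, h']
      · simp [tog, h, h']

/-- The involution of `Red r` given by toggling the letter `i`. -/
def sig (r : ℕ) (i : Fin 3) : Equiv.Perm (Red r) where
  toFun l := ⟨tog r i l.1, tog_good r i l.1 l.2.1 l.2.2⟩
  invFun l := ⟨tog r i l.1, tog_good r i l.1 l.2.1 l.2.2⟩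
  left_inv l := Subtype.ext (tog_tog r i l.1 l.2.1 l.2.2)
  right_inv l := Subtype.ext (tog_tog r i l.1 l.2.1 l.2.2)

lemma sig_mul_self (r : ℕ) (i : Fin 3) : sig r i * sig r i = 1 :=
  Equiv.ext fun l => (sig r i).left_inv l

/-- The empty word. -/
def emp (r : ℕ) : Red r := ⟨[], by simp, by simp⟩

instance (r : ℕ) : Finite (Red r) := by
  have h : {l : List (Fin 3) | l.length ≤ r}.Finite := List.finite_length_le (Fin 3) r
  have h2 : {l : List (Fin 3) | l.length ≤ r ∧ l.IsChain (· ≠ ·)}.Finite :=
    h.subset (fun l hl => hl.1)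
  exact h2.to_subtype

lemma sig_emp (r : ℕ) (hr : 1 ≤ r) (i : Fin 3) : (sig r i (emp r)).1 = [i] := by
  have : 0 < r := hr
  change tog r i [] = [i]
  simp [tog, this]

lemma sig_inj (r : ℕ) (hr : 1 ≤ r) {i j : Fin 3} (h : sig r i = sig r j) : i = j := by
  have h1 := sig_emp r hr i
  rw [h, sig_emp r hr j] at h1
  simpa using h1.symm

lemma sig_ne_one (r : ℕ) (hr : 1 ≤ r) (i : Fin 3) : sig r i ≠ 1 := by
  intro h
  have h1 := sig_emp r hr i
  rw [h] at h1
  simp [emp] at h1

/-- `t` disjoint copies of the Cayley graph of the group of permutations of `Red r` with respect to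
the three involutions `sig r i`. -/
def base (r t : ℕ) : SimpleGraph (Fin t × Equiv.Perm (Red r)) where
  Adj u v := u ≠ v ∧ u.1 = v.1 ∧ ∃ i, v.2 = u.2 * sig r i
  symm := ⟨by
    rintro u v ⟨h0, h1, i, h2⟩
    refine ⟨h0.symm, h1.symm, i, ?_⟩
    rw [h2, mul_assoc, sig_mul_self, mul_one]⟩
  loopless := ⟨fun u h => h.1 rfl⟩

lemma base_adj (r t : ℕ) (hr : 1 ≤ r) (u v : Fin t × Equiv.Perm (Red r)) :
    (base r t).Adj u v ↔ u.1 = v.1 ∧ ∃ i, v.2 = u.2 * sig r i := by
  constructor
  · exact fun h => h.2
  · rintro ⟨h1, i, h2⟩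
    refine ⟨?_, h1, i, h2⟩
    intro h
    rw [h] at h2
    exact sig_ne_one r hr i (mul_eq_left.1 h2.symm)

/-- The neighbours of `u` are the three vertices `(u.1, u.2 * sig r i)`. -/
lemma base_nbr (r t : ℕ) (hr : 1 ≤ r) (u : Fin t × Equiv.Perm (Red r)) :
    ∃ f : Fin 3 → Fin t × Equiv.Perm (Red r), Function.Injective f ∧
      ∀ v, (base r t).Adj u v ↔ ∃ i, f i = v := by
  refine ⟨fun i => (u.1, u.2 * sig r i), ?_, ?_⟩
  · intro i j h
    simp only [Prod.mk.injEq, true_and, mul_right_inj] at h
    exact sig_inj r hr h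
  · intro v
    rw [base_adj r t hr]
    constructor
    · rintro ⟨h1, i, h2⟩
      exact ⟨i, Prod.ext h1 h2.symm⟩
    · rintro ⟨i, rfl⟩
      exact ⟨rfl, i, rfl⟩

/-- Non-backtracking walks of length at most `r` are injective. -/
def Girthy {V : Type*} (G : SimpleGraph V) (r : ℕ) : Prop :=
  ∀ x : ℕ → V, (∀ m, G.Adj (x m) (x (m + 1))) → (∀ m, x m ≠ x (m + 2)) →
    ∀ m l, 0 < l → l ≤ r → x m ≠ x (m + l)

/-- The word read along a sequence of letters. -/
def word (c : ℕ → Fin 3) : ℕ → ℕ → List (Fin 3)
  | _, 0 => []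
  | m, l + 1 => c m :: word c (m + 1) l

lemma word_length (c : ℕ → Fin 3) (m l : ℕ) : (word c m l).length = l := by
  induction l generalizing m with
  | zero => rfl
  | succ l ih => simp [word, ih]

lemma base_girthy (r t : ℕ) (hr : 1 ≤ r) : Girthy (base r t) r := by
  intro x hadj hnb m l hl hlr hm
  have h1 : ∀ m, ∃ i, (x (m + 1)).2 = (x m).2 * sig r i := fun m => (hadj m).2.2
  choose c hc using h1
  have h2 : ∀ m, (x m).1 = (x (m + 1)).1 := fun m => (hadj m).2.1
  have hcc : ∀ m, c m ≠ c (m + 1) := by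
    intro m h
    apply hnb m
    apply Prod.ext
    · rw [h2 m, h2 (m + 1)]
    · have e1 := hc (m + 1)
      rw [hc m, ← h, mul_assoc, sig_mul_self, mul_one] at e1
      exact e1.symm
  have key : ∀ l, l ≤ r → ∀ m, ∃ w : Red r, (x (m + l)).2 (emp r) = (x m).2 w ∧
      w.1 = word c m l := by
    intro l
    induction l with
    | zero =>
      intro _ m
      exact ⟨emp r, rfl, rfl⟩
    | succ l ih =>
      intro hl m
      obtain ⟨w, hw1, hw2⟩ := ih (by omega) (m + 1)
      refine ⟨sig r (c m) w, ?_, ?_⟩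
      · have e : m + (l + 1) = m + 1 + l := by omega
        rw [e, hw1, hc m]
        rfl
      · change tog r (c m) w.1 = _
        rw [hw2]
        have hlen := word_length c (m + 1) l
        cases l with
        | zero =>
          have : 0 < r := by omega
          simp [word, tog, this]
        | succ l =>
          have hl' : (word c (m + 1 + 1) l).length + 1 < r := by
            rw [word_length]; omega
          have hne : c (m + 1) ≠ c m := fun h => hcc m h.symm
          simp [word, tog, hl', hne]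
  obtain ⟨w, hw1, hw2⟩ := key l hlr m
  rw [← hm] at hw1
  have hw3 : emp r = w := (x m).2.injective hw1
  have hw4 := word_length c m l
  rw [← hw2, ← hw3] at hw4
  simp only [emp, List.length_nil] at hw4
  omega

/-- Existence of non-backtracking walks inside a set of vertices having at least two neighbours
in the set. -/
lemma exists_walk {V : Type*} (G : SimpleGraph V) (U : Set V)
    (hU : ∀ v ∈ U, ∀ u, ∃ w ∈ U, G.Adj v w ∧ w ≠ u) (a b : V) (ha : a ∈ U) (hb : b ∈ U)
    (hab : G.Adj a b) : ∃ x : ℕ → V, x 0 = a ∧ x 1 = b ∧ (∀ m, x m ∈ U) ∧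
      (∀ m, G.Adj (x m) (x (m + 1))) ∧ ∀ m, x m ≠ x (m + 2) := by
  classical
  choose! f hf1 hf2 hf3 using hU
  let p : ℕ → V × V := fun m => Nat.rec (a, b) (fun _ q => (q.2, f q.2 q.1)) m
  have hp : ∀ m, p (m + 1) = ((p m).2, f (p m).2 (p m).1) := fun m => rfl
  have hinv : ∀ m, (p m).1 ∈ U ∧ (p m).2 ∈ U ∧ G.Adj (p m).1 (p m).2 := by
    intro m
    induction m with
    | zero => exact ⟨ha, hb, hab⟩
    | succ m ih =>
      rw [hp]
      exact ⟨ih.2.1, hf1 _ ih.2.1 _, hf2 _ ih.2.1 _⟩
  refine ⟨fun m => (p m).1, rfl, rfl, fun m => (hinv m).1, fun m => ?_, fun m => ?_⟩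
  · have := (hinv m).2.2
    change G.Adj (p m).1 (p (m + 1)).1
    rw [hp]
    exact this
  · have e : (p (m + 1 + 1)).1 = (p (m + 1)).2 := rfl
    have e2 : (p (m + 1)).2 = f (p m).2 (p m).1 := rfl
    have e3 := hf3 (p m).2 (hinv m).2.1 (p m).1
    intro h
    apply e3
    rw [← e2, ← e]
    exact h.symm

end Pool.Agent.Lib.MP_aa4a89_co
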