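import Mathlib
import Pool.Agent.Lib.MP_aa4a89_co.Tree
import Pool.Agent.Lib.MP_aa4a89_co.Defs

/-!
# Counting: few edges of a cubic graph cannot meet all long walks
-/

namespace Pool.Agent.Lib.MP_aa4a89_co

open Finset

/-- Number of neighbours of `v` in `U`. -/
noncomputable def nb {V : Type*} (G : SimpleGraph V) (v : V) (U : Finset V) : ℕ := by
  classical exact (U.filter (fun w => G.Adj v w)).card

lemma nb_erase {V : Type*} [DecidableEq V] (G : SimpleGraph V) (U : Finset V) (v : V)
    (hv : v ∈ U) :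
    ∑ w ∈ U, nb G w U ≤ ∑ w ∈ U.erase v, nb G w (U.erase v) + 2 * nb G v U := by
  classical
  have h1 : ∑ w ∈ U, nb G w U = nb G v U + ∑ w ∈ U.erase v, nb G w U :=
    (Finset.add_sum_erase U _ hv).symm
  have h2 : ∀ w ∈ U.erase v, nb G w U ≤ nb G w (U.erase v) + (if G.Adj v w then 1 else 0) := by
    intro w hw
    unfold nb
    by_cases h : G.Adj v w
    · rw [if_pos h]
      have : U.filter (fun x => G.Adj w x) ⊆
          insert v ((U.erase v).filter (fun x => G.Adj w x)) := by
        intro x hx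
        simp only [mem_filter] at hx
        by_cases hxv : x = v
        · rw [hxv]; exact mem_insert_self _ _
        · exact mem_insert_of_mem (mem_filter.2 ⟨mem_erase.2 ⟨hxv, hx.1⟩, hx.2⟩)
      exact (card_le_card this).trans (card_insert_le _ _)
    · rw [if_neg h, add_zero]
      apply card_le_card
      intro x hx
      simp only [mem_filter] at hx
      refine mem_filter.2 ⟨mem_erase.2 ⟨?_, hx.1⟩, hx.2⟩
      rintro rfl
      exact h hx.2.symm
  have h3 : ∑ w ∈ U.erase v, (if G.Adj v w then 1 else 0) ≤ nb G v U := by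
    rw [← Finset.card_filter]
    unfold nb
    apply card_le_card
    intro x hx
    simp only [mem_filter] at hx
    exact mem_filter.2 ⟨mem_of_mem_erase hx.1, hx.2⟩
  have h4 := Finset.sum_le_sum h2
  rw [Finset.sum_add_distrib] at h4
  omega

lemma peel {V : Type*} (G : SimpleGraph V) (U : Finset V) (hU : U.Nonempty)
    (h : 2 * U.card ≤ ∑ w ∈ U, nb G w U) :
    ∃ U' ⊆ U, U'.Nonempty ∧ ∀ v ∈ U', 2 ≤ nb G v U' := by
  classical
  induction U using Finset.strongInduction with
  | H U ih =>
    by_cases hall : ∀ v ∈ U, 2 ≤ nb G v U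
    · exact ⟨U, Subset.refl _, hU, hall⟩
    · push Not at hall
      obtain ⟨v, hv, hlt⟩ := hall
      have h1 := nb_erase G U v hv
      have h2 : (U.erase v).card + 1 = U.card := card_erase_add_one hv
      have hne : (U.erase v).Nonempty := by
        by_contra hemp
        rw [not_nonempty_iff_eq_empty] at hemp
        rw [hemp] at h1 h2
        have hUv : U = {v} := by
          apply Finset.eq_singleton_iff_unique_mem.2
          refine ⟨hv, fun x hx => ?_⟩
          by_contra hxv
          have : x ∈ U.erase v := mem_erase.2 ⟨hxv, hx⟩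
          rw [hemp] at this
          simp at this
        have : nb G v U = 0 := by
          unfold nb
          rw [hUv]
          rw [Finset.card_eq_zero]
          apply Finset.filter_eq_empty_iff.2
          intro x hx hadj
          rw [mem_singleton] at hx
          rw [hx] at hadj
          exact hadj.ne rfl
        simp only [sum_empty, card_empty] at h1 h2
        omega
      obtain ⟨U', hU', hU'ne, hU'd⟩ := ih (U.erase v) (erase_ssubset hv) hne (by omega)
      exact ⟨U', hU'.trans (erase_subset v U), hU'ne, hU'd⟩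

/-- A graph in which every vertex has exactly three neighbours. -/
def Cubic {V : Type*} (G : SimpleGraph V) : Prop :=
  ∀ u, ∃ f : Fin 3 → V, Function.Injective f ∧ ∀ v, G.Adj u v ↔ ∃ i, f i = v

lemma nb_univ {V : Type*} [Fintype V] (G : SimpleGraph V) (hG : Cubic G) (v : V) :
    nb G v univ = 3 := by
  classical
  obtain ⟨f, hf, hadj⟩ := hG v
  have : (univ : Finset V).filter (fun w => G.Adj v w) = univ.image f := by
    ext w
    simp only [mem_filter, mem_univ, true_and, mem_image]
    rw [hadj w]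
  unfold nb
  rw [this, card_image_of_injective _ hf]
  simp

lemma nb_compl {V : Type*} [Fintype V] [DecidableEq V] (G : SimpleGraph V) (hG : Cubic G) (v : V)
    (S : Finset V) : nb G v S + nb G v Sᶜ = 3 := by
  classical
  rw [← nb_univ G hG v]
  unfold nb
  rw [← card_union_of_disjoint]
  · congr 1
    ext w
    simp only [mem_union, mem_filter, mem_compl, mem_univ, true_and]
    tauto
  · rw [Finset.disjoint_left]
    intro w hw hw'
    simp only [mem_filter, mem_compl] at hw hw'
    exact hw'.1 hw.1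

lemma nb_double {V : Type*} (G : SimpleGraph V) (S T : Finset V) :
    ∑ v ∈ S, nb G v T = ∑ w ∈ T, nb G w S := by
  classical
  unfold nb
  simp only [Finset.card_filter]
  rw [Finset.sum_comm]
  refine Finset.sum_congr rfl fun w _ => Finset.sum_congr rfl fun v _ => ?_
  simp only [G.adj_comm]

/-- If `S` is a set of vertices of a cubic graph, every vertex of `S` has a neighbour in `S` and
`3 |S| ≤ |V|`, `S ≠ V`, then some non-empty set disjoint from `S` has minimum degree at least
two. -/
lemma exists_dense {V : Type*} [Fintype V] [DecidableEq V] (G : SimpleGraph V) (hG : Cubic G)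
    (S : Finset V) (hS : ∀ s ∈ S, ∃ t ∈ S, G.Adj s t) (hcard : 3 * S.card ≤ Fintype.card V)
    (hpos : 0 < Fintype.card V) :
    ∃ U ⊆ Sᶜ, U.Nonempty ∧ ∀ v ∈ U, 2 ≤ nb G v U := by
  classical
  have hR : Sᶜ.card + S.card = Fintype.card V := by
    rw [add_comm]; exact Finset.card_add_card_compl S
  apply peel
  · rw [← Finset.card_pos]
    omega
  · have h1 : ∑ v ∈ Sᶜ, (nb G v S + nb G v Sᶜ) = ∑ v ∈ Sᶜ, 3 :=
      Finset.sum_congr rfl fun v _ => nb_compl G hG v S
    rw [Finset.sum_add_distrib, nb_double G Sᶜ S, sum_const, smul_eq_mul] at h1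
    have h2 : ∑ w ∈ S, nb G w Sᶜ ≤ ∑ w ∈ S, 2 := by
      apply Finset.sum_le_sum
      intro s hs
      have h3 := nb_compl G hG s S
      have h4 : 1 ≤ nb G s S := by
        obtain ⟨t, ht, hst⟩ := hS s hs
        unfold nb
        exact Finset.card_pos.2 ⟨t, mem_filter.2 ⟨ht, hst⟩⟩
      omega
    rw [sum_const, smul_eq_mul] at h2
    omega

lemma dense_step {V : Type*} (G : SimpleGraph V) (U : Finset V) (hd : ∀ v ∈ U, 2 ≤ nb G v U) :
    ∀ v ∈ (U : Set V), ∀ u, ∃ w ∈ (U : Set V), G.Adj v w ∧ w ≠ u := by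
  classical
  intro v hv u
  have h := hd v hv
  unfold nb at h
  have h2 : 1 < (U.filter (fun w => G.Adj v w)).card := h
  obtain ⟨w, hw, hwu⟩ := Finset.exists_mem_ne h2 u
  rw [mem_filter] at hw
  exact ⟨w, hw.1, hw.2, hwu⟩

/-- The walk in the line graph coming from a non-backtracking walk. -/
lemma edge_walk {V : Type*} (G : SimpleGraph V) (r : ℕ) (hg : Girthy G r) (hr : 2 ≤ r)
    (x : ℕ → V) (hadj : ∀ m, G.Adj (x m) (x (m + 1))) (hnb : ∀ m, x m ≠ x (m + 2)) :
    ∃ e : ℕ → G.edgeSet, (∀ m, (e m : Sym2 V) = s(x m, x (m + 1))) ∧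
      (∀ m, G.lineGraph.Adj (e m) (e (m + 1))) ∧
      ∀ m l, 0 < l → l + 1 ≤ r → e m ≠ e (m + l) := by
  have hne : ∀ m l, 0 < l → l + 1 ≤ r →
      (s(x m, x (m + 1)) : Sym2 V) ≠ s(x (m + l), x (m + l + 1)) := by
    intro m l hl hlr h
    rw [Sym2.eq_iff] at h
    rcases h with h | h
    · exact hg x hadj hnb m l hl (by omega) h.1
    · exact hg x hadj hnb m (l + 1) (by omega) hlr h.1
  refine ⟨fun m => ⟨s(x m, x (m + 1)), hadj m⟩, fun m => rfl, fun m => ?_, fun m l hl hlr h => ?_⟩
  · rw [SimpleGraph.lineGraph_adj_iff_exists]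
    refine ⟨?_, x (m + 1), ?_, ?_⟩
    · intro h
      exact hne m 1 (by omega) (by omega) (congrArg Subtype.val h)
    · exact Sym2.mem_mk_right _ _
    · exact Sym2.mem_mk_left _ _
  · exact hne m l hl hlr (congrArg Subtype.val h)

/-- If fewer than `|V| / 6` edges are chosen, the line graph contains a long walk outside their
closed neighbourhood. -/
lemma exists_edge_walk {V : Type*} [Fintype V] (G : SimpleGraph V) (hG : Cubic G) (r : ℕ)
    (hg : Girthy G r) (hr : 2 ≤ r) (D : Finset G.edgeSet) (hD : 6 * D.card < Fintype.card V) :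
    ∃ e : ℕ → G.edgeSet, (∀ m, e m ∉ closedNbhd G.lineGraph D) ∧
      (∀ m, G.lineGraph.Adj (e m) (e (m + 1))) ∧
      ∀ m l, 0 < l → l + 1 ≤ r → e m ≠ e (m + l) := by
  classical
  let S : Finset V := D.biUnion (fun e => univ.filter (fun v => v ∈ (e : Sym2 V)))
  have hmem : ∀ v, v ∈ S ↔ ∃ e ∈ D, v ∈ (e : Sym2 V) := by
    intro v
    simp [S]
  have hcardS : S.card ≤ D.card * 2 := by
    apply Finset.card_biUnion_le_card_mul
    rintro ⟨e, he⟩ _
    induction e using Sym2.ind with
    | _ a b =>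
      have : (univ : Finset V).filter (fun v => v ∈ ((⟨s(a, b), he⟩ : G.edgeSet) : Sym2 V)) ⊆
          {a, b} := by
        intro v hv
        simp only [mem_filter, mem_univ, true_and, Sym2.mem_iff] at hv
        simp only [mem_insert, mem_singleton]
        exact hv
      exact (card_le_card this).trans card_le_two
  have hS : ∀ s ∈ S, ∃ t ∈ S, G.Adj s t := by
    intro s hs
    rw [hmem] at hs
    obtain ⟨⟨e, he⟩, heD, hse⟩ := hs
    induction e using Sym2.ind with
    | _ a b =>
      have hab : G.Adj a b := he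
      simp only [Sym2.mem_iff] at hse
      rcases hse with h | h
      · subst h
        exact ⟨b, (hmem b).2 ⟨_, heD, Sym2.mem_mk_right _ _⟩, hab⟩
      · subst h
        exact ⟨a, (hmem a).2 ⟨_, heD, Sym2.mem_mk_left _ _⟩, hab.symm⟩
  obtain ⟨U, hUS, ⟨a, ha⟩, hUd⟩ := exists_dense G hG S hS (by omega) (by omega)
  have hstep := dense_step G U hUd
  obtain ⟨b, hb, hab, _⟩ := hstep a ha a
  obtain ⟨x, -, -, hxU, hxadj, hxnb⟩ := exists_walk G U hstep a b ha hb hab
  obtain ⟨e, he1, he2, he3⟩ := edge_walk G r hg hr x hxadj hxnb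
  refine ⟨e, fun m hm => ?_, he2, he3⟩
  have hout : ∀ v, v ∈ (e m : Sym2 V) → v ∉ S := by
    intro v hv hvS
    rw [he1 m, Sym2.mem_iff] at hv
    rcases hv with rfl | rfl
    · exact (mem_compl.1 (hUS (hxU m))) hvS
    · exact (mem_compl.1 (hUS (hxU (m + 1)))) hvS
  rcases hm with hm | ⟨u, hu, hadj⟩
  · apply hout (x m)
    · rw [he1 m]; exact Sym2.mem_mk_left _ _
    · exact (hmem _).2 ⟨e m, hm, by rw [he1 m]; exact Sym2.mem_mk_left _ _⟩
  · rw [SimpleGraph.lineGraph_adj_iff_exists] at hadj
    obtain ⟨_, v, hv1, hv2⟩ := hadj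
    exact hout v hv2 ((hmem v).2 ⟨u, hu, hv1⟩)

/-- Long walks in the line graph starting at a given vertex. -/
lemma exists_edge_walk_from {V : Type*} (G : SimpleGraph V) (hG : Cubic G) (r : ℕ)
    (hg : Girthy G r) (hr : 2 ≤ r) (e₀ : G.edgeSet) :
    ∃ e : ℕ → G.edgeSet, e 0 = e₀ ∧
      (∀ m, G.lineGraph.Adj (e m) (e (m + 1))) ∧
      ∀ m l, 0 < l → l + 1 ≤ r → e m ≠ e (m + l) := by
  classical
  obtain ⟨e, he⟩ := e₀
  induction e using Sym2.ind with
  | _ a b =>
    have hab : G.Adj a b := he
    have hstep : ∀ v ∈ (Set.univ : Set V), ∀ u, ∃ w ∈ (Set.univ : Set V), G.Adj v w ∧ w ≠ u := by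
      intro v _ u
      obtain ⟨f, hf, hadj⟩ := hG v
      by_cases h : f 0 = u
      · refine ⟨f 1, Set.mem_univ _, (hadj _).2 ⟨1, rfl⟩, ?_⟩
        rw [← h]
        exact fun h' => absurd (hf h') (by decide)
      · exact ⟨f 0, Set.mem_univ _, (hadj _).2 ⟨0, rfl⟩, h⟩
    obtain ⟨x, hx0, hx1, -, hxadj, hxnb⟩ := exists_walk G Set.univ hstep a b (Set.mem_univ _)
      (Set.mem_univ _) hab
    obtain ⟨e, he1, he2, he3⟩ := edge_walk G r hg hr x hxadj hxnb
    refine ⟨e, ?_, he2, he3⟩
    apply Subtype.ext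
    rw [he1 0]
    simp only [hx0, zero_add, hx1]

/-- The handshake identity for the line graph of a cubic graph. -/
lemma two_mul_card_edgeSet {V : Type*} [Fintype V] (G : SimpleGraph V) (hG : Cubic G) :
    2 * Nat.card G.edgeSet = 3 * Fintype.card V := by
  classical
  have h := G.sum_degrees_eq_twice_card_edges
  have h2 : ∀ v, G.degree v = 3 := by
    intro v
    rw [← nb_univ G hG v]
    unfold nb
    rw [← SimpleGraph.card_neighborFinset_eq_degree]
    congr 1
    ext w
    simp
  simp only [h2, sum_const, smul_eq_mul, card_univ] at h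
  rw [← SimpleGraph.coe_edgeFinset, Nat.card_coe_set_eq, Set.ncard_coe_finset]
  omega

end Pool.Agent.Lib.MP_aa4a89_co
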