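import Mathlib
import Pool.Agent.Lib.MP_aa4a89_co.Defs

/-!
# Gluing graphs and passing to the isolation constant
-/

namespace Pool.Agent.Lib.MP_aa4a89_co

open Finset

lemma transfer {V V' W : Type*} (G : SimpleGraph V) (G' : SimpleGraph V') (F : SimpleGraph W)
    (D : Set V) (D' : Set V') (φ : V → V') (hinj : Function.Injective φ)
    (hadj : ∀ a b, G.Adj a b → G'.Adj (φ a) (φ b))
    (hN : ∀ a, φ a ∈ closedNbhd G' D' → a ∈ closedNbhd G D)
    (h : F.Free (G'.induce (closedNbhd G' D')ᶜ)) : F.Free (G.induce (closedNbhd G D)ᶜ) := by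
  rintro ⟨f⟩
  apply h
  let ψ : G.induce (closedNbhd G D)ᶜ →g G'.induce (closedNbhd G' D')ᶜ :=
    ⟨fun a => ⟨φ a.1, fun h => a.2 (hN _ h)⟩, fun {a b} h => hadj _ _ h⟩
  have hψ : Function.Injective ψ := by
    intro a b hab
    exact Subtype.ext (hinj (congrArg Subtype.val hab))
  exact ⟨(ψ.toCopy hψ).comp f⟩

lemma isIsolating_univ {V W : Type*} [Fintype V] [Nonempty W] (G : SimpleGraph V)
    (F : SimpleGraph W) : IsIsolating G F univ := by
  rintro ⟨f⟩
  obtain ⟨w⟩ := (inferInstance : Nonempty W)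
  exact (f w).2 (Or.inl (by simp))

lemma exists_min {V W : Type*} [Fintype V] [Nonempty W] (G : SimpleGraph V)
    (F : SimpleGraph W) : ∃ D : Finset V, D.card = isolationNumber G F ∧ IsIsolating G F D :=
  Nat.sInf_mem (s := {m | ∃ D : Finset V, D.card = m ∧ IsIsolating G F D})
    ⟨_, univ, rfl, isIsolating_univ G F⟩

lemma c_ge {W : Type*} [Nonempty W] (F : SimpleGraph W) {T : Type*} [Fintype T]
    (Z : SimpleGraph T) (hZ : Z.Connected) (a : ℝ)
    (h : ∀ D : Finset T, IsIsolating Z F D → a * Fintype.card T ≤ D.card) :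
    a ≤ c F (Fintype.card T) := by
  classical
  set n := Fintype.card T with hn
  have hpos : 0 < n := by
    have := hZ.nonempty
    exact Fintype.card_pos
  let G := Z.overFin hn.symm
  let e : Z ≃g G := Z.overFinIso hn.symm
  have hG : G.Connected := (SimpleGraph.Iso.connected_iff e).1 hZ
  obtain ⟨D', hD'card, hD'⟩ := exists_min G F
  let D : Finset T := D'.map e.symm.toEquiv.toEmbedding
  have hD : IsIsolating Z F D := by
    apply transfer Z G F D D' e e.injective (fun a b hab => e.map_adj_iff.2 hab) _ hD'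
    intro a ha
    rcases ha with ha | ⟨u, hu, hadj⟩
    · left
      have : a = e.symm (e a) := (e.symm_apply_apply a).symm
      rw [this]
      exact Finset.mem_coe.2 (Finset.mem_map.2 ⟨e a, ha, rfl⟩)
    · right
      refine ⟨e.symm u, Finset.mem_coe.2 (Finset.mem_map.2 ⟨u, hu, rfl⟩), ?_⟩
      rw [← e.map_adj_iff, e.apply_symm_apply]
      exact hadj
  have h1 := h D hD
  rw [Finset.card_map, hD'card] at h1
  have h2 : a ≤ (isolationNumber G F : ℝ) / n := by
    rw [le_div_iff₀ (by exact_mod_cast hpos)]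
    exact h1
  refine h2.trans (le_csSup ?_ ⟨G, hG, rfl⟩)
  apply Set.Finite.bddAbove
  apply (Set.finite_range (fun G : SimpleGraph (Fin n) => (isolationNumber G F : ℝ) / n)).subset
  rintro x ⟨G, _, rfl⟩
  exact ⟨G, rfl⟩

/-- The graph obtained from `X` by adding `s` vertices and making the set consisting of `Root` and
the new vertices a clique. -/
def glue {V : Type*} (X : SimpleGraph V) (Root : Set V) (s : ℕ) : SimpleGraph (V ⊕ Fin s) where
  Adj a b := a ≠ b ∧ ((∃ a' b', a = Sum.inl a' ∧ b = Sum.inl b' ∧ X.Adj a' b') ∨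
    ((∀ a', a = Sum.inl a' → a' ∈ Root) ∧ (∀ b', b = Sum.inl b' → b' ∈ Root)))
  symm := ⟨by
    rintro a b ⟨h0, h⟩
    refine ⟨h0.symm, ?_⟩
    rcases h with ⟨a', b', ha, hb, hab⟩ | ⟨ha, hb⟩
    · exact Or.inl ⟨b', a', hb, ha, hab.symm⟩
    · exact Or.inr ⟨hb, ha⟩⟩
  loopless := ⟨fun a h => h.1 rfl⟩

lemma glue_isolating {V W : Type*} [DecidableEq V] (X : SimpleGraph V) (F : SimpleGraph W)
    (Root : Finset V) (s : ℕ) (D : Finset (V ⊕ Fin s)) (hD : IsIsolating (glue X Root s) F D) :
    ∃ D' : Finset V, D'.card ≤ D.card + Root.card ∧ IsIsolating X F D' := by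
  classical
  refine ⟨D.preimage Sum.inl (Sum.inl_injective.injOn) ∪ Root, ?_, ?_⟩
  · refine (card_union_le _ _).trans (Nat.add_le_add_right ?_ _)
    rw [← Finset.card_image_of_injective (D.preimage Sum.inl (Sum.inl_injective.injOn))
      (Sum.inl_injective (β := Fin s))]
    apply card_le_card
    intro z hz
    rw [mem_image] at hz
    obtain ⟨v, hv, rfl⟩ := hz
    exact Finset.mem_preimage.1 hv
  · apply transfer X (glue X Root s) F _ D Sum.inl Sum.inl_injective _ _ hD
    · intro a b hab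
      exact ⟨fun h => hab.ne (Sum.inl_injective h), Or.inl ⟨a, b, rfl, rfl, hab⟩⟩
    · intro a ha
      rcases ha with ha | ⟨u, hu, _, hadj⟩
      · left
        simp only [coe_union, Set.mem_union, Finset.mem_coe, Finset.mem_preimage]
        exact Or.inl ha
      · rcases hadj with ⟨u', a', rfl, haa, hua⟩ | ⟨_, ha⟩
        · right
          rw [Sum.inl.injEq] at haa
          subst haa
          refine ⟨u', ?_, hua⟩
          simp only [coe_union, Set.mem_union, Finset.mem_coe, Finset.mem_preimage]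
          exact Or.inl hu
        · left
          simp only [coe_union, Set.mem_union, Finset.mem_coe, Finset.mem_preimage]
          exact Or.inr (ha a rfl)

lemma glue_connected {V : Type*} [Nonempty V] (X : SimpleGraph V) (Root : Set V) (s : ℕ)
    (hR : ∀ v, ∃ w ∈ Root, X.Reachable v w) : (glue X Root s).Connected := by
  obtain ⟨v₀⟩ := (inferInstance : Nonempty V)
  obtain ⟨ρ, hρ, -⟩ := hR v₀
  have h1 : ∀ w ∈ Root, (glue X Root s).Reachable (Sum.inl w) (Sum.inl ρ) := by
    intro w hw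
    by_cases h : w = ρ
    · rw [h]
    · apply SimpleGraph.Adj.reachable
      refine ⟨fun h' => h (Sum.inl_injective h'), Or.inr ⟨?_, ?_⟩⟩
      · intro a' ha'
        rw [Sum.inl.injEq] at ha'
        exact ha' ▸ hw
      · intro a' ha'
        rw [Sum.inl.injEq] at ha'
        exact ha' ▸ hρ
  let φ : X →g glue X Root s := ⟨Sum.inl, fun {a b} hab =>
    ⟨fun h => hab.ne (Sum.inl_injective h), Or.inl ⟨a, b, rfl, rfl, hab⟩⟩⟩
  have h2 : ∀ z, (glue X Root s).Reachable z (Sum.inl ρ) := by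
    intro z
    rcases z with v | j
    · obtain ⟨w, hw, hvw⟩ := hR v
      exact (hvw.map φ).trans (h1 w hw)
    · apply SimpleGraph.Adj.reachable
      refine ⟨by simp, Or.inr ⟨?_, ?_⟩⟩
      · intro a' ha'
        cases ha'
      · intro a' ha'
        rw [Sum.inl.injEq] at ha'
        exact ha' ▸ hρ
  rw [SimpleGraph.connected_iff_exists_forall_reachable]
  exact ⟨Sum.inl ρ, fun z => (h2 z).symm⟩

/-- The properties of the graphs used in the gluing: every isolating set has at least `|V| / b`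
elements, and the components have at least `r` vertices. -/
structure Good {V W : Type*} [Fintype V] (X : SimpleGraph V) (F : SimpleGraph W) (b r : ℕ) :
    Prop where
  iso : ∀ D : Finset V, IsIsolating X F D → Fintype.card V ≤ b * D.card
  comp : ∃ Root : Finset V, (∀ v, ∃ w ∈ Root, X.Reachable v w) ∧
    Root.card * r ≤ Fintype.card V

lemma c_ge_of_good {V W : Type*} [Fintype V] [Nonempty V] [Nonempty W] (X : SimpleGraph V)
    (F : SimpleGraph W) (b r s : ℕ) (hb : 1 ≤ b) (hr : 1 ≤ r) (h : Good X F b r) (a : ℝ)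
    (ha : a * (Fintype.card V + s) ≤ (Fintype.card V : ℝ) / b - (Fintype.card V : ℝ) / r) :
    a ≤ c F (Fintype.card V + s) := by
  classical
  obtain ⟨Root, hR1, hR2⟩ := h.comp
  have hconn : (glue X Root s).Connected := glue_connected X Root s hR1
  have hcard : Fintype.card (V ⊕ Fin s) = Fintype.card V + s := by simp
  have key := c_ge F (glue X Root s) hconn a (fun D hD => ?_)
  · rw [hcard] at key
    exact key
  · obtain ⟨D', hD'1, hD'2⟩ := glue_isolating X F Root s D hD
    have h3 := h.iso D' hD'2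
    have h4 : (Fintype.card V : ℝ) ≤ b * (D.card + Root.card) := by
      have : Fintype.card V ≤ b * (D.card + Root.card) :=
        h3.trans (Nat.mul_le_mul_left _ hD'1)
      exact_mod_cast this
    have h5 : (Root.card : ℝ) * r ≤ Fintype.card V := by exact_mod_cast hR2
    have hb' : (0 : ℝ) < b := by exact_mod_cast hb
    have hr' : (0 : ℝ) < r := by exact_mod_cast hr
    have h6 : (Fintype.card V : ℝ) / b ≤ D.card + Root.card := by
      rw [div_le_iff₀ hb']
      linarith
    have h7 : (Root.card : ℝ) ≤ Fintype.card V / r := by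
      rw [le_div_iff₀ hr']
      exact h5
    rw [hcard]
    push_cast
    linarith

/-- If there are good graphs with `t * M` vertices for every `t ≥ 1`, where `r` can be taken
arbitrarily large, then the isolation constant is asymptotically at least `1 / b`. -/
lemma c_eventually {W : Type*} [Nonempty W] (F : SimpleGraph W) (b : ℕ) (hb : 1 ≤ b)
    (h : ∀ r₀ : ℕ, ∃ r M : ℕ, r₀ ≤ r ∧ 1 ≤ M ∧ ∀ t, 1 ≤ t → ∃ (V : Type) (_ : Fintype V)
      (X : SimpleGraph V), Fintype.card V = t * M ∧ Good X F b r) (ε : ℝ) (hε : 0 < ε) :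
    ∃ n₀ : ℕ, ∀ n ≥ n₀, 1 / (b : ℝ) - ε ≤ c F n := by
  obtain ⟨r₀, hr₀⟩ := exists_nat_gt (2 / ε)
  obtain ⟨r, M, hr, hM, hX⟩ := h (max r₀ 1)
  have hr1 : 1 ≤ r := (le_max_right _ _).trans hr
  have hrr : r₀ ≤ r := (le_max_left _ _).trans hr
  obtain ⟨n₁, hn₁⟩ := exists_nat_gt (2 * M / ε)
  refine ⟨max n₁ M, fun n hn => ?_⟩
  have hnM : M ≤ n := (le_max_right _ _).trans hn
  have hnn : n₁ ≤ n := (le_max_left _ _).trans hn
  have ht : 1 ≤ n / M := (Nat.one_le_div_iff (by omega)).2 hnM
  obtain ⟨V, hV, X, hVc, hgood⟩ := hX (n / M) ht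
  have hne : Nonempty V := by
    rw [← Fintype.card_pos_iff, hVc]
    exact Nat.mul_pos ht hM
  have hsum : Fintype.card V + n % M = n := by
    rw [hVc, mul_comm]
    exact Nat.div_add_mod n M
  have hmod : n % M < M := Nat.mod_lt _ (by omega)
  rw [← hsum]
  apply c_ge_of_good X F b r (n % M) hb hr1 hgood
  have hb' : (1 : ℝ) ≤ b := by exact_mod_cast hb
  have hbi : 1 / (b : ℝ) ≤ 1 := by
    rw [div_le_one (by linarith)]
    exact hb'
  have hbi0 : 0 < 1 / (b : ℝ) := by positivity
  have hsumR : (Fintype.card V : ℝ) + (n % M : ℕ) = n := by exact_mod_cast hsum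
  have hmodR : ((n % M : ℕ) : ℝ) ≤ M := by exact_mod_cast hmod.le
  have hmod0 : (0 : ℝ) ≤ ((n % M : ℕ) : ℝ) := by positivity
  have hr'' : (r₀ : ℝ) ≤ r := by exact_mod_cast hrr
  have hrpos : (0 : ℝ) < r := by exact_mod_cast hr1
  have h1 : (Fintype.card V : ℝ) / r ≤ n * (ε / 2) := by
    rw [div_le_iff₀ hrpos]
    have h2 : 1 ≤ ε / 2 * r := by
      have : 2 / ε < r := lt_of_lt_of_le hr₀ hr''
      rw [div_lt_iff₀ hε] at this
      linarith
    have h3 : (0 : ℝ) ≤ n := by positivity
    have h4 : (n : ℝ) ≤ n * (ε / 2 * r) := le_mul_of_one_le_right h3 h2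
    have h5 : (Fintype.card V : ℝ) ≤ n := by linarith
    linarith
  have h2 : (M : ℝ) ≤ n * (ε / 2) := by
    have h3 : (n₁ : ℝ) ≤ n := by exact_mod_cast hnn
    have h4 : 2 * M / ε < n := lt_of_lt_of_le hn₁ h3
    rw [div_lt_iff₀ hε] at h4
    linarith
  rw [hsumR]
  have h3 : (Fintype.card V : ℝ) = n - (n % M : ℕ) := by linarith
  have h4 : (Fintype.card V : ℝ) / b = n * (1 / b) - (n % M : ℕ) * (1 / b) := by
    rw [h3]
    ring
  have h5 : ((n % M : ℕ) : ℝ) * (1 / b) ≤ M := by
    calc ((n % M : ℕ) : ℝ) * (1 / b) ≤ ((n % M : ℕ) : ℝ) * 1 :=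
          mul_le_mul_of_nonneg_left hbi hmod0
      _ ≤ M := by linarith
  rw [h4]
  linarith

end Pool.Agent.Lib.MP_aa4a89_co
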