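import Mathlib
import Pool.Agent.Lib.MP_aa4a89_co.Glue
import Pool.Agent.Lib.MP_aa4a89_co.Count

/-!
# Isolation of long paths and cycles
-/

namespace Pool.Agent.Lib.MP_aa4a89_co

open Finset

lemma comps_of_walks {V : Type*} [Fintype V] (X : SimpleGraph V) (r : ℕ)
    (h : ∀ v, ∃ e : ℕ → V, e 0 = v ∧ (∀ m, X.Adj (e m) (e (m + 1))) ∧
      ∀ m l, 0 < l → l + 1 ≤ r → e m ≠ e (m + l)) :
    ∃ Root : Finset V, (∀ v, ∃ w ∈ Root, X.Reachable v w) ∧ Root.card * r ≤ Fintype.card V := by
  classical
  choose e he0 hadj hne using h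
  have : Fintype X.ConnectedComponent := Fintype.ofFinite _
  have hreach : ∀ v m, X.Reachable v (e v m) := by
    intro v m
    induction m with
    | zero => rw [he0]
    | succ m ih => exact ih.trans (hadj v m).reachable
  refine ⟨univ.image (fun C : X.ConnectedComponent => Quot.out C), fun v => ?_, ?_⟩
  · refine ⟨Quot.out (X.connectedComponentMk v), mem_image_of_mem _ (mem_univ _), ?_⟩
    apply SimpleGraph.ConnectedComponent.exact
    exact (Quot.out_eq (X.connectedComponentMk v)).symm
  · have hinj : Function.Injective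
        (fun p : X.ConnectedComponent × Fin r => e (Quot.out p.1) p.2) := by
      rintro ⟨C, i⟩ ⟨C', i'⟩ hp
      simp only at hp
      have hC : ∀ (C : X.ConnectedComponent) (i : ℕ),
          X.connectedComponentMk (e (Quot.out C) i) = C := by
        intro C i
        rw [← SimpleGraph.ConnectedComponent.sound (hreach (Quot.out C) i)]
        exact Quot.out_eq C
      have hCC : C = C' := by
        rw [← hC C i, hp, hC C' i']
      subst hCC
      have hii : i = i' := by
        rcases lt_trichotomy (i : ℕ) (i' : ℕ) with h | h | h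
        · exfalso
          apply hne (Quot.out C) i (i' - i) (by omega) (by omega)
          rw [hp]
          congr 1
          omega
        · exact Fin.ext h
        · exfalso
          apply hne (Quot.out C) i' (i - i') (by omega) (by omega)
          rw [← hp]
          congr 1
          omega
      rw [hii]
    have h1 := Fintype.card_le_of_injective _ hinj
    rw [Fintype.card_prod, Fintype.card_fin] at h1
    refine le_trans (Nat.mul_le_mul_right r ?_) h1
    rw [← Finset.card_univ]
    exact Finset.card_image_le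

/-- A long walk outside `N[D]` contains a path. -/
lemma path_of_walk {V : Type*} (X : SimpleGraph V) (A : Set V) (k r : ℕ) (hkr : k ≤ r)
    (e : ℕ → V) (hA : ∀ m, e m ∉ A) (hadj : ∀ m, X.Adj (e m) (e (m + 1)))
    (hne : ∀ m l, 0 < l → l + 1 ≤ r → e m ≠ e (m + l)) :
    ¬ (SimpleGraph.pathGraph k).Free (X.induce Aᶜ) := by
  intro hfree
  apply hfree
  let φ : SimpleGraph.pathGraph k →g X.induce Aᶜ := ⟨fun i => ⟨e i, hA i⟩, by
    intro i j hij
    rw [SimpleGraph.pathGraph_adj] at hij
    rcases hij with h | h
    · have := hadj i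
      rw [h] at this
      exact this
    · have := hadj j
      rw [h] at this
      exact this.symm⟩
  refine ⟨φ.toCopy ?_⟩
  intro i j hij
  have hij' : e i = e j := congrArg Subtype.val hij
  rcases lt_trichotomy (i : ℕ) (j : ℕ) with h | h | h
  · exfalso
    apply hne i (j - i) (by omega) (by omega)
    rw [hij']
    congr 1
    omega
  · exact Fin.ext h
  · exfalso
    apply hne j (i - j) (by omega) (by omega)
    rw [← hij']
    congr 1
    omega

/-- The graph obtained from `X` by replacing every vertex by two adjacent twins. -/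
def dbl {V : Type*} (X : SimpleGraph V) : SimpleGraph (V × Bool) where
  Adj a b := X.Adj a.1 b.1 ∨ (a.1 = b.1 ∧ a.2 ≠ b.2)
  symm := ⟨by
    rintro a b (h | h)
    · exact Or.inl h.symm
    · exact Or.inr ⟨h.1.symm, h.2.symm⟩⟩
  loopless := ⟨by
    rintro a (h | h)
    · exact h.ne rfl
    · exact h.2 rfl⟩

lemma dbl_closedNbhd {V : Type*} [DecidableEq V] (X : SimpleGraph V) (D : Finset (V × Bool))
    (p : V × Bool) (h : p ∈ closedNbhd (dbl X) D) :
    p.1 ∈ closedNbhd X (D.image Prod.fst : Finset V) := by
  rcases h with h | ⟨u, hu, hadj⟩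
  · left
    exact Finset.mem_coe.2 (mem_image_of_mem _ (Finset.mem_coe.1 h))
  · rcases hadj with h | h
    · right
      exact ⟨u.1, Finset.mem_coe.2 (mem_image_of_mem _ (Finset.mem_coe.1 hu)), h⟩
    · left
      rw [← h.1]
      exact Finset.mem_coe.2 (mem_image_of_mem _ (Finset.mem_coe.1 hu))

lemma cycle_sub {k : ℕ} (hk : 3 ≤ k) {u v : Fin k} (h : (u - v).val = 1) :
    u.val = v.val + 1 ∨ (u.val = 0 ∧ v.val + 1 = k) := by
  have hu := u.2
  have hv := v.2
  rw [Fin.sub_def] at h
  simp only at h
  by_cases hlt : k - v.val + u.val < k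
  · rw [Nat.mod_eq_of_lt hlt] at h
    omega
  · have h2 : (k - v.val + u.val) % k = k - v.val + u.val - k := by
      rw [Nat.mod_eq_sub_mod (by omega), Nat.mod_eq_of_lt (by omega)]
    rw [h2] at h
    omega

/-- A long walk outside `N[D]` gives cycles in the doubled graph. -/
lemma cycle_of_walk {V : Type*} (X : SimpleGraph V) (A : Set V) (B : Set (V × Bool))
    (hB : ∀ p ∈ B, p.1 ∈ A) (k r : ℕ) (hk : 3 ≤ k) (hkr : k ≤ r)
    (e : ℕ → V) (hA : ∀ m, e m ∉ A) (hadj : ∀ m, X.Adj (e m) (e (m + 1)))
    (hne : ∀ m l, 0 < l → l + 1 ≤ r → e m ≠ e (m + l)) :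
    ¬ (SimpleGraph.cycleGraph k).Free ((dbl X).induce Bᶜ) := by
  classical
  intro hfree
  apply hfree
  let j := (k + 1) / 2
  let q : ℕ → ℕ := fun i => if i < j then i else k - 1 - i
  let g : Fin k → V × Bool := fun i => (e (q i), if (i : ℕ) < j then false else true)
  have hg : ∀ i, g i ∉ B := fun i hi => hA _ (hB _ hi)
  have hstep : ∀ u v : Fin k, (u - v).val = 1 → (dbl X).Adj (g v) (g u) := by
    intro u v huv
    rcases cycle_sub hk huv with h | ⟨h1, h2⟩
    · by_cases hu : u.val < j
      · left
        have hv : v.val < j := by omega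
        simp only [g, q, hu, hv, if_true]
        rw [h]
        exact hadj _
      · by_cases hv : v.val < j
        · have hvj : v.val + 1 = j := by omega
          have huk := u.2
          by_cases hpar : k - 1 - u.val = v.val
          · right
            simp only [g, q, hu, hv, if_true, if_false]
            exact ⟨by rw [hpar], by simp⟩
          · left
            simp only [g, q, hu, hv, if_true, if_false]
            have : k - 1 - u.val + 1 = v.val := by omega
            rw [← this]
            exact (hadj _).symm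
        · left
          simp only [g, q, hu, hv, if_false]
          have huk := u.2
          have : k - 1 - v.val = k - 1 - u.val + 1 := by omega
          rw [this]
          exact (hadj _).symm
    · right
      have hv : ¬ v.val < j := by omega
      have hu : u.val < j := by omega
      simp only [g, q, hu, hv, if_true, if_false]
      refine ⟨?_, by simp⟩
      congr 1
      omega
  let φ : SimpleGraph.cycleGraph k →g (dbl X).induce Bᶜ := ⟨fun i => ⟨g i, hg i⟩, by
    intro u v huv
    rw [SimpleGraph.cycleGraph_adj'] at huv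
    rcases huv with h | h
    · exact (hstep u v h).symm
    · exact hstep v u h⟩
  refine ⟨φ.toCopy ?_⟩
  intro u v huv
  have h1 : g u = g v := congrArg Subtype.val huv
  have huk := u.2
  have hvk := v.2
  have hinj : ∀ a b : ℕ, a < k → b < k → e a = e b → a = b := by
    intro a b ha hb hab
    rcases lt_trichotomy a b with h | h | h
    · exfalso
      apply hne a (b - a) (by omega) (by omega)
      rw [hab]
      congr 1
      omega
    · exact h
    · exfalso
      apply hne b (a - b) (by omega) (by omega)
      rw [← hab]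
      congr 1
      omega
  simp only [g, q, Prod.mk.injEq] at h1
  apply Fin.ext
  by_cases hu : u.val < j <;> by_cases hv : v.val < j
  · simp only [hu, hv, if_true] at h1
    exact hinj _ _ huk hvk h1.1
  · simp [hu, hv] at h1
  · simp [hu, hv] at h1
  · simp only [hu, hv, if_false] at h1
    have := hinj _ _ (by omega) (by omega) h1.1
    omega

lemma base_cubic (r t : ℕ) (hr : 1 ≤ r) : Cubic (base r t) := fun u => base_nbr r t hr u

lemma card_edges_base (r t : ℕ) (hr : 1 ≤ r) :
    Nat.card (base r t).edgeSet = t * Nat.card (base r 1).edgeSet := by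
  classical
  have : Fintype (Equiv.Perm (Red r)) := Fintype.ofFinite _
  have h1 := two_mul_card_edgeSet (base r t) (base_cubic r t hr)
  have h2 := two_mul_card_edgeSet (base r 1) (base_cubic r 1 hr)
  rw [Fintype.card_prod, Fintype.card_fin] at h1 h2
  nlinarith

lemma card_edges_pos (r : ℕ) (hr : 1 ≤ r) : 1 ≤ Nat.card (base r 1).edgeSet := by
  classical
  have : Fintype (Equiv.Perm (Red r)) := Fintype.ofFinite _
  have h2 := two_mul_card_edgeSet (base r 1) (base_cubic r 1 hr)
  rw [Fintype.card_prod, Fintype.card_fin] at h2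
  have h3 : 0 < Fintype.card (Equiv.Perm (Red r)) := Fintype.card_pos
  omega

lemma good_path (k r t : ℕ) (hk : k ≤ r) (hr : 2 ≤ r) [Fintype (base r t).edgeSet] :
    Good (base r t).lineGraph (SimpleGraph.pathGraph k) 9 r := by
  classical
  have : Fintype (Equiv.Perm (Red r)) := Fintype.ofFinite _
  have hcub := base_cubic r t (by omega)
  have hgir := base_girthy r t (by omega)
  refine ⟨fun D hD => ?_, comps_of_walks _ r fun v => ?_⟩
  · by_contra hlt
    have h1 := two_mul_card_edgeSet (base r t) hcub
    rw [Nat.card_eq_fintype_card] at h1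
    obtain ⟨e, he1, he2, he3⟩ := exists_edge_walk (base r t) hcub r hgir hr D (by omega)
    exact path_of_walk _ _ k r hk e he1 he2 he3 hD
  · exact exists_edge_walk_from (base r t) hcub r hgir hr v

lemma good_cycle (k r t : ℕ) (hk3 : 3 ≤ k) (hk : k ≤ r) [Fintype (base r t).edgeSet] :
    Good (dbl (base r t).lineGraph) (SimpleGraph.cycleGraph k) 18 r := by
  classical
  have : Fintype (Equiv.Perm (Red r)) := Fintype.ofFinite _
  have hcub := base_cubic r t (by omega)
  have hgir := base_girthy r t (by omega)
  refine ⟨fun D hD => ?_, comps_of_walks _ r fun v => ?_⟩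
  · by_contra hlt
    have h1 := two_mul_card_edgeSet (base r t) hcub
    rw [Nat.card_eq_fintype_card] at h1
    rw [Fintype.card_prod, Fintype.card_bool] at hlt
    have h2 : (D.image Prod.fst).card ≤ D.card := card_image_le
    obtain ⟨e, he1, he2, he3⟩ := exists_edge_walk (base r t) hcub r hgir (by omega)
      (D.image Prod.fst) (by omega)
    exact cycle_of_walk _ _ (closedNbhd (dbl (base r t).lineGraph) D)
      (fun p hp => dbl_closedNbhd _ D p hp) k r hk3 hk e he1 he2 he3 hD
  · obtain ⟨e, he1, he2, he3⟩ := exists_edge_walk_from (base r t) hcub r hgir (by omega) v.1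
    refine ⟨fun m => (e m, v.2), ?_, fun m => Or.inl (he2 m), fun m l hl hlr h => ?_⟩
    · simp only [he1]
    · exact he3 m l hl hlr (congrArg Prod.fst h)

theorem paths (k : ℕ) (hk : 1 ≤ k) (ε : ℝ) (hε : 0 < ε) :
    ∃ n₀ : ℕ, ∀ n ≥ n₀, 1 / 9 - ε ≤ c (SimpleGraph.pathGraph k) n := by
  have : Nonempty (Fin k) := ⟨⟨0, by omega⟩⟩
  have key := c_eventually (SimpleGraph.pathGraph k) 9 (by norm_num) ?_ ε hε
  · norm_num at key ⊢
    exact key
  · intro r₀
    refine ⟨max r₀ (max k 2), Nat.card (base (max r₀ (max k 2)) 1).edgeSet, le_max_left _ _,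
      card_edges_pos _ (by omega), fun t ht => ?_⟩
    have : Fintype (base (max r₀ (max k 2)) t).edgeSet := Fintype.ofFinite _
    refine ⟨_, this, (base (max r₀ (max k 2)) t).lineGraph, ?_, good_path k _ t (by omega)
      (by omega)⟩
    rw [← Nat.card_eq_fintype_card]
    exact card_edges_base _ t (by omega)

theorem cycles (k : ℕ) (hk : 3 ≤ k) (ε : ℝ) (hε : 0 < ε) :
    ∃ n₀ : ℕ, ∀ n ≥ n₀, 1 / 18 - ε ≤ c (SimpleGraph.cycleGraph k) n := by
  have : Nonempty (Fin k) := ⟨⟨0, by omega⟩⟩
  have key := c_eventually (SimpleGraph.cycleGraph k) 18 (by norm_num) ?_ ε hε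
  · norm_num at key ⊢
    exact key
  · intro r₀
    refine ⟨max r₀ (max k 2), 2 * Nat.card (base (max r₀ (max k 2)) 1).edgeSet, le_max_left _ _,
      ?_, fun t ht => ?_⟩
    · have := card_edges_pos (max r₀ (max k 2)) (by omega)
      omega
    have : Fintype (base (max r₀ (max k 2)) t).edgeSet := Fintype.ofFinite _
    refine ⟨_, inferInstance, dbl (base (max r₀ (max k 2)) t).lineGraph, ?_,
      good_cycle k _ t hk (by omega)⟩
    rw [Fintype.card_prod, Fintype.card_bool, ← Nat.card_eq_fintype_card,
      card_edges_base _ t (by omega)]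
    ring

end Pool.Agent.Lib.MP_aa4a89_co
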